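import Pool.Agent.Work.MP_a60953_an.Calc

/-! The polynomial inequalities behind the counterexample. -/

namespace Pool.Agent.Work.MP_a60953_an

lemma q_pos (S Y : ℝ) (hS : 0 < S) (hY : 0 ≤ Y) :
    0 < 60 * Y ^ 3 - 3 * S * Y ^ 2 + 2 * S ^ 2 * Y + S ^ 3 := by
  have h1 : 0 ≤ Y * (S - 2 * Y) ^ 2 := by positivity
  have h2 : 0 < S ^ 3 := by positivity
  have h3 : 0 ≤ Y ^ 3 := by positivity
  have h4 : 0 ≤ S ^ 2 * Y := by positivity
  have h5 : 0 ≤ S * Y ^ 2 := by positivity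
  nlinarith

lemma delta_pos (t y : ℝ) (ht : 0 < t) : 0 < P 60 (-3) 2 1 t y := by
  have h := q_pos (t ^ 2) (y ^ 2) (by positivity) (by positivity)
  have : P 60 (-3) 2 1 t y =
      t * (60 * (y ^ 2) ^ 3 - 3 * t ^ 2 * (y ^ 2) ^ 2 + 2 * (t ^ 2) ^ 2 * y ^ 2 + (t ^ 2) ^ 3) := by
    unfold P; ring
  rw [this]; positivity

lemma u_sub_v (t y : ℝ) :
    P 300000 (-10000) 2000 30 t y - P 299940 (-9997) 1998 29 t y = P 60 (-3) 2 1 t y := by
  unfold P; ring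

lemma v_pos (t y : ℝ) (ht : 0 < t) : 0 < P 299940 (-9997) 1998 29 t y := by
  have : P 299940 (-9997) 1998 29 t y =
      t * (y ^ 2 * (1000 * (t ^ 2 - 5 * y ^ 2) ^ 2 + 998 * t ^ 4 + 3 * t ^ 2 * y ^ 2
        + 274940 * y ^ 4) + 29 * t ^ 6) := by
    unfold P; ring
  rw [this]; positivity

lemma ut_pos (t y : ℝ) (ht : 0 < t) : 0 < Pt 300000 (-10000) 2000 30 t y := by
  have : Pt 300000 (-10000) 2000 30 t y =
      y ^ 2 * (5000 * (t ^ 2 - 3 * y ^ 2) ^ 2 + 5000 * t ^ 4 + 255000 * y ^ 4) + 210 * t ^ 6 := by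
    unfold Pt; ring
  rw [this]; positivity

lemma core (S Y : ℝ) (hS : 0 ≤ S) (hY : 0 ≤ Y) :
    (1782 * Y ^ 2 + 4 * S * Y + 46 * S ^ 2) *
      (300000 * Y ^ 3 - 29700 * S * Y ^ 2 + 10000 * S ^ 2 * Y + 210 * S ^ 3) ≤
    (8940000 * Y ^ 2 - 240000 * S * Y + 25774 * S ^ 2) *
      (60 * Y ^ 3 - 3 * S * Y ^ 2 + 2 * S ^ 2 * Y + S ^ 3) := by
  have h : (8940000 * Y ^ 2 - 240000 * S * Y + 25774 * S ^ 2) *
      (60 * Y ^ 3 - 3 * S * Y ^ 2 + 2 * S ^ 2 * Y + S ^ 3) -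
      (1782 * Y ^ 2 + 4 * S * Y + 46 * S ^ 2) *
      (300000 * Y ^ 3 - 29700 * S * Y ^ 2 + 10000 * S ^ 2 * Y + 210 * S ^ 3) =
      1800000 * Y ^ 5 + S * (16000 * (S ^ 2 - 203 / 10 * S * Y + 10 * Y ^ 2) ^ 2 + 114 * S ^ 4
        + 308 * S ^ 3 * Y + Y ^ 2 * (2400000 * (S - 11 / 10 * Y) ^ 2 + 21218 * S ^ 2
        + 421240 * S * Y + 6001400 * Y ^ 2)) := by ring
  have h2 : 0 ≤ 1800000 * Y ^ 5 + S * (16000 * (S ^ 2 - 203 / 10 * S * Y + 10 * Y ^ 2) ^ 2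
        + 114 * S ^ 4
        + 308 * S ^ 3 * Y + Y ^ 2 * (2400000 * (S - 11 / 10 * Y) ^ 2 + 21218 * S ^ 2
        + 421240 * S * Y + 6001400 * Y ^ 2)) := by positivity
  linarith

/-- If `u(t,y) = v(s,y)` then `t` is close to `s`. -/
lemma close (t s y : ℝ) (ht : 0 < t) (hts : t ≤ s)
    (h : P 300000 (-10000) 2000 30 t y = P 299940 (-9997) 1998 29 s y) : 99 / 100 * s ≤ t := by
  by_contra hlt
  push Not at hlt
  have hs : 0 < s := lt_of_lt_of_le ht hts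
  set Y := y ^ 2 with hYdef
  have hY : 0 ≤ Y := by positivity
  set A := s ^ 2 + s * t + t ^ 2 with hA
  set B := s ^ 4 + s ^ 3 * t + s ^ 2 * t ^ 2 + s * t ^ 3 + t ^ 4 with hB
  have e1 : P 299940 (-9997) 1998 29 s y - P 300000 (-10000) 2000 30 t y =
      (s - t) * (300000 * Y ^ 3 - 10000 * A * Y ^ 2 + 2000 * B * Y) + 30 * (s ^ 7 - t ^ 7)
        - s * (60 * Y ^ 3 - 3 * s ^ 2 * Y ^ 2 + 2 * s ^ 4 * Y) - s ^ 7 := by
    unfold P; rw [hA, hB, hYdef]; ring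
  have hBA : 5 * A ^ 2 ≤ 9 * B := by
    have : 9 * B - 5 * A ^ 2 = (s - t) ^ 2 * (4 * s ^ 2 + 7 * s * t + 4 * t ^ 2) := by
      rw [hA, hB]; ring
    have h2 : 0 ≤ (s - t) ^ 2 * (4 * s ^ 2 + 7 * s * t + 4 * t ^ 2) := by positivity
    linarith
  have hBs : s ^ 4 ≤ B := by
    have : 0 ≤ s ^ 3 * t + s ^ 2 * t ^ 2 + s * t ^ 3 + t ^ 4 := by positivity
    rw [hB]; linarith
  have hU : 6000 * Y ^ 3 + 200 * s ^ 4 * Y ≤
      300000 * Y ^ 3 - 10000 * A * Y ^ 2 + 2000 * B * Y := by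
    have h1 : 0 ≤ Y * (A - 5 * Y) ^ 2 := by positivity
    have h2 : 0 ≤ Y * (9 * B - 5 * A ^ 2) := mul_nonneg hY (by linarith)
    have h3 : 0 ≤ Y * (B - s ^ 4) := mul_nonneg hY (by linarith)
    have h4 : 0 ≤ Y ^ 3 := by positivity
    nlinarith
  have hD : s / 100 ≤ s - t := by linarith
  have h5 : s / 100 * (6000 * Y ^ 3 + 200 * s ^ 4 * Y) ≤
      (s - t) * (300000 * Y ^ 3 - 10000 * A * Y ^ 2 + 2000 * B * Y) :=
    mul_le_mul hD hU (by positivity) (by linarith)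
  have h6 : t ^ 7 ≤ (99 / 100 * s) ^ 7 := pow_le_pow_left₀ ht.le hlt.le 7
  have h7 : 0 < s ^ 7 := by positivity
  have h8 : 0 ≤ s * (s ^ 2 * Y ^ 2) := by positivity
  have h9 : (99 / 100 * s) ^ 7 ≤ 94 / 100 * s ^ 7 := by
    rw [mul_pow]; exact mul_le_mul_of_nonneg_right (by norm_num) h7.le
  rw [h, sub_self] at e1
  nlinarith

/-- The comparison condition. -/
lemma comparison (t s y : ℝ) (ht : 0 < t) (hts : t ≤ s)
    (h : P 300000 (-10000) 2000 30 t y = P 299940 (-9997) 1998 29 s y) :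
    PL 300000 (-10000) 2000 30 t y ≤ PL 299940 (-9997) 1998 29 s y := by
  have hc := close t s y ht hts h
  have hs : 0 < s := lt_of_lt_of_le ht hts
  set Y := y ^ 2 with hYdef
  have hY : 0 ≤ Y := by positivity
  set S := s ^ 2 with hSdef
  have hS : 0 < S := by positivity
  set A := s ^ 2 + s * t + t ^ 2 with hA
  set B := s ^ 4 + s ^ 3 * t + s ^ 2 * t ^ 2 + s * t ^ 3 + t ^ 4 with hB
  set C := s ^ 6 + s ^ 5 * t + s ^ 4 * t ^ 2 + s ^ 3 * t ^ 3 + s ^ 2 * t ^ 4 + s * t ^ 5 + t ^ 6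
    with hC
  set q := 60 * Y ^ 3 - 3 * S * Y ^ 2 + 2 * S ^ 2 * Y + S ^ 3 with hq
  set M := 1782 * Y ^ 2 + 4 * S * Y + 46 * S ^ 2 with hM
  set U := 300000 * Y ^ 3 - 10000 * A * Y ^ 2 + 2000 * B * Y + 30 * C with hU
  set L := 8940000 * Y ^ 2 - 80000 * A * Y + 5260 * B with hL
  have hqpos : 0 < q := q_pos S Y hS hY
  have hMpos : 0 ≤ M := by positivity
  have e1 : (s - t) * U = s * q := by
    have : P 299940 (-9997) 1998 29 s y - P 300000 (-10000) 2000 30 t y =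
        (s - t) * U - s * q := by
      unfold P; rw [hU, hq, hA, hB, hC, hYdef, hSdef]; ring
    rw [h, sub_self] at this
    linarith
  have e2 : PL 299940 (-9997) 1998 29 s y - PL 300000 (-10000) 2000 30 t y =
      (s - t) * L - s * M := by
    unfold PL; rw [hL, hM, hA, hB, hYdef, hSdef]; ring
  have p : ∀ k : ℕ, t ^ k ≤ s ^ k := fun k => pow_le_pow_left₀ ht.le hts k
  have r : ∀ k : ℕ, (99 / 100) ^ k * s ^ k ≤ t ^ k := fun k => by
    rw [← mul_pow]; exact pow_le_pow_left₀ (by positivity) hc k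
  have m : ∀ j k : ℕ, s ^ j * t ^ k ≤ s ^ (j + k) := fun j k => by
    rw [pow_add]; exact mul_le_mul_of_nonneg_left (p k) (by positivity)
  have m' : ∀ j k : ℕ, (99 / 100) ^ k * s ^ (j + k) ≤ s ^ j * t ^ k := fun j k => by
    rw [pow_add, mul_left_comm]; exact mul_le_mul_of_nonneg_left (r k) (by positivity)
  have hA1 : A ≤ 3 * S := by
    have := m 1 1; have := p 2
    rw [hA, hSdef]; norm_num at *; linarith
  have hA2 : 297 / 100 * S ≤ A := by
    have := m' 1 1; have := r 2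
    have : 0 < s ^ 2 := by positivity
    rw [hA, hSdef]; norm_num at *; linarith
  have hB1 : B ≤ 5 * S ^ 2 := by
    have := m 3 1; have := m 2 2; have := m 1 3; have := p 4
    have e : S ^ 2 = s ^ 4 := by rw [hSdef]; ring
    rw [hB, e]; norm_num at *; linarith
  have hB2 : 49 / 10 * S ^ 2 ≤ B := by
    have := m' 3 1; have := m' 2 2; have := m' 1 3; have := r 4
    have e : S ^ 2 = s ^ 4 := by rw [hSdef]; ring
    have : 0 < s ^ 4 := by positivity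
    rw [hB, e]; norm_num at *; linarith
  have hC1 : C ≤ 7 * S ^ 3 := by
    have := m 5 1; have := m 4 2; have := m 3 3; have := m 2 4; have := m 1 5; have := p 6
    have e : S ^ 3 = s ^ 6 := by rw [hSdef]; ring
    rw [hC, e]; norm_num at *; linarith
  have hU0 : U ≤ 300000 * Y ^ 3 - 29700 * S * Y ^ 2 + 10000 * S ^ 2 * Y + 210 * S ^ 3 := by
    have h1 : 0 ≤ (A - 297 / 100 * S) * Y ^ 2 := mul_nonneg (by linarith) (by positivity)
    have h2 : 0 ≤ (5 * S ^ 2 - B) * Y := mul_nonneg (by linarith) hY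
    rw [hU]; nlinarith
  have hL0 : 8940000 * Y ^ 2 - 240000 * S * Y + 25774 * S ^ 2 ≤ L := by
    have h1 : 0 ≤ (3 * S - A) * Y := mul_nonneg (by linarith) hY
    rw [hL]; nlinarith
  have key : M * U ≤ L * q :=
    le_trans (mul_le_mul_of_nonneg_left hU0 hMpos)
      (le_trans (core S Y hS.le hY) (mul_le_mul_of_nonneg_right hL0 hqpos.le))
  have hD : 0 ≤ s - t := by linarith
  have k2 : (s * M) * q ≤ ((s - t) * L) * q := by
    calc (s * M) * q = (s - t) * (M * U) := by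
          rw [show (s - t) * (M * U) = M * ((s - t) * U) by ring, e1]; ring
      _ ≤ (s - t) * (L * q) := mul_le_mul_of_nonneg_left key hD
      _ = ((s - t) * L) * q := by ring
  have k3 : s * M ≤ (s - t) * L := le_of_mul_le_mul_right k2 hqpos
  linarith

end Pool.Agent.Work.MP_a60953_an
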