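import Mathlib.Analysis.InnerProductSpace.Laplacian
import Mathlib.Analysis.InnerProductSpace.PiL2
import Mathlib.Analysis.Calculus.FDeriv.Mul
import Mathlib.Analysis.Calculus.FDeriv.Pow
import Mathlib.Analysis.Calculus.LineDeriv.Basic
import Mathlib.Analysis.Calculus.ContDiff.Operations
import Mathlib.Analysis.Calculus.ContDiff.WithLp

/-! Derivatives of the polynomial `a t y^6 + b t^3 y^4 + c t^5 y^2 + d t^7`
in the first two coordinates of Euclidean space. -/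

open scoped Laplacian ContDiff

namespace Pool.Agent.Work.MP_a60953_an

/-- The two-variable polynomial. -/
def P (a b c d t y : ℝ) : ℝ := a * t * y ^ 6 + b * t ^ 3 * y ^ 4 + c * t ^ 5 * y ^ 2 + d * t ^ 7

/-- Its derivative in `t`. -/
def Pt (a b c d t y : ℝ) : ℝ :=
  a * y ^ 6 + 3 * b * t ^ 2 * y ^ 4 + 5 * c * t ^ 4 * y ^ 2 + 7 * d * t ^ 6

/-- Its derivative in `y`. -/
def Py (a b c t y : ℝ) : ℝ := 6 * a * t * y ^ 5 + 4 * b * t ^ 3 * y ^ 3 + 2 * c * t ^ 5 * y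

/-- Its Laplacian. -/
def PL (a b c d t y : ℝ) : ℝ :=
  (30 * a + 6 * b) * t * y ^ 4 + (12 * b + 20 * c) * t ^ 3 * y ^ 2 + (2 * c + 42 * d) * t ^ 5

variable {m : ℕ}

/-- The polynomial as a function on Euclidean space. -/
def F (m : ℕ) (a b c d : ℝ) (x : EuclideanSpace ℝ (Fin (m + 2))) : ℝ := P a b c d (x 0) (x 1)

/-- Coordinate functionals. -/
noncomputable def pr (m : ℕ) (i : Fin (m + 2)) : EuclideanSpace ℝ (Fin (m + 2)) →L[ℝ] ℝ :=
  EuclideanSpace.proj i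

lemma pr_apply (i : Fin (m + 2)) (x : EuclideanSpace ℝ (Fin (m + 2))) : pr m i x = x i := rfl

lemma hasFDerivAt_coord (i : Fin (m + 2)) (x : EuclideanSpace ℝ (Fin (m + 2))) :
    HasFDerivAt (fun z : EuclideanSpace ℝ (Fin (m + 2)) => z i) (pr m i) x :=
  (pr m i).hasFDerivAt

lemma fd_congr {E G : Type*} [NormedAddCommGroup E] [NormedSpace ℝ E] [NormedAddCommGroup G]
    [NormedSpace ℝ G] {f g : E → G} {f' g' : E →L[ℝ] G} {x : E}
    (h : HasFDerivAt f f' x) (h1 : g = f) (h2 : g' = f') : HasFDerivAt g g' x := by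
  rw [h1, h2]; exact h

lemma hasFDerivAt_mono (k : ℝ) (i j : ℕ) (x : EuclideanSpace ℝ (Fin (m + 2))) :
    HasFDerivAt (fun z : EuclideanSpace ℝ (Fin (m + 2)) => k * z 0 ^ i * z 1 ^ j)
      ((k * i * x 0 ^ (i - 1) * x 1 ^ j) • pr m 0 + (k * j * x 0 ^ i * x 1 ^ (j - 1)) • pr m 1) x := by
  have h := (((hasFDerivAt_coord (m := m) 0 x).pow i).const_mul k).mul
    ((hasFDerivAt_coord (m := m) 1 x).pow j)
  refine fd_congr h rfl ?_
  ext v
  simp [pr_apply]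
  ring

lemma hasFDerivAt_F (a b c d : ℝ) (x : EuclideanSpace ℝ (Fin (m + 2))) :
    HasFDerivAt (F m a b c d)
      (Pt a b c d (x 0) (x 1) • pr m 0 + Py a b c (x 0) (x 1) • pr m 1) x := by
  have h := (((hasFDerivAt_mono a 1 6 x).add (hasFDerivAt_mono b 3 4 x)).add
    (hasFDerivAt_mono c 5 2 x)).add (hasFDerivAt_mono d 7 0 x)
  refine fd_congr h ?_ ?_
  · ext z; simp [F, P]
  · ext v; simp [Pt, Py, pr_apply]; ring

lemma fderiv_F (a b c d : ℝ) : fderiv ℝ (F m a b c d) =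
    fun x => Pt a b c d (x 0) (x 1) • pr m 0 + Py a b c (x 0) (x 1) • pr m 1 := by
  ext1 x; exact (hasFDerivAt_F a b c d x).fderiv

lemma hasFDerivAt_Pt (a b c d : ℝ) (x : EuclideanSpace ℝ (Fin (m + 2))) :
    HasFDerivAt (fun z : EuclideanSpace ℝ (Fin (m + 2)) => Pt a b c d (z 0) (z 1))
      ((6 * b * x 0 * x 1 ^ 4 + 20 * c * x 0 ^ 3 * x 1 ^ 2 + 42 * d * x 0 ^ 5) • pr m 0 +
        (6 * a * x 1 ^ 5 + 12 * b * x 0 ^ 2 * x 1 ^ 3 + 10 * c * x 0 ^ 4 * x 1) • pr m 1) x := by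
  have h := (((hasFDerivAt_mono a 0 6 x).add (hasFDerivAt_mono (3 * b) 2 4 x)).add
    (hasFDerivAt_mono (5 * c) 4 2 x)).add (hasFDerivAt_mono (7 * d) 6 0 x)
  refine fd_congr h ?_ ?_
  · ext z; simp [Pt]
  · ext v; simp [pr_apply]; ring

lemma hasFDerivAt_Py (a b c : ℝ) (x : EuclideanSpace ℝ (Fin (m + 2))) :
    HasFDerivAt (fun z : EuclideanSpace ℝ (Fin (m + 2)) => Py a b c (z 0) (z 1))
      ((6 * a * x 1 ^ 5 + 12 * b * x 0 ^ 2 * x 1 ^ 3 + 10 * c * x 0 ^ 4 * x 1) • pr m 0 +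
        (30 * a * x 0 * x 1 ^ 4 + 12 * b * x 0 ^ 3 * x 1 ^ 2 + 2 * c * x 0 ^ 5) • pr m 1) x := by
  have h := ((hasFDerivAt_mono (6 * a) 1 5 x).add (hasFDerivAt_mono (4 * b) 3 3 x)).add
    (hasFDerivAt_mono (2 * c) 5 1 x)
  refine fd_congr h ?_ ?_
  · ext z; simp [Py]
  · ext v; simp [pr_apply]; ring

lemma laplacian_F (a b c d : ℝ) (x : EuclideanSpace ℝ (Fin (m + 2))) :
    Δ (F m a b c d) x = PL a b c d (x 0) (x 1) := by
  rw [InnerProductSpace.laplacian_eq_iteratedFDeriv_orthonormalBasis _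
    (EuclideanSpace.basisFun (Fin (m + 2)) ℝ)]
  have h := ((hasFDerivAt_Pt a b c d x).smul_const (pr m 0)).add
    ((hasFDerivAt_Py a b c x).smul_const (pr m 1))
  simp only [iteratedFDeriv_two_apply, fderiv_F]
  rw [show (fun x : EuclideanSpace ℝ (Fin (m + 2)) =>
      Pt a b c d (x 0) (x 1) • pr m 0 + Py a b c (x 0) (x 1) • pr m 1) =
      (fun x : EuclideanSpace ℝ (Fin (m + 2)) => Pt a b c d (x 0) (x 1) • pr m 0) +
      (fun x : EuclideanSpace ℝ (Fin (m + 2)) => Py a b c (x 0) (x 1) • pr m 1) from rfl, h.fderiv]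
  rw [Fin.sum_univ_succ, Fin.sum_univ_succ, Finset.sum_eq_zero]
  · simp [pr_apply, PL]; ring
  · intro i _
    have h0 : (0 : Fin (m + 2)) ≠ i.succ.succ := (Fin.succ_ne_zero _).symm
    have h1 : (1 : Fin (m + 2)) ≠ i.succ.succ := by
      intro h
      have := congrArg Fin.val h
      simp at this
    simp [pr_apply, h0, h1]

lemma lineDeriv_F (a b c d : ℝ) (x : EuclideanSpace ℝ (Fin (m + 2))) :
    lineDeriv ℝ (F m a b c d) x (EuclideanSpace.single 0 1) = Pt a b c d (x 0) (x 1) := by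
  rw [(hasFDerivAt_F a b c d x).differentiableAt.lineDeriv_eq_fderiv, fderiv_F]
  simp [pr_apply]

lemma contDiff_F (a b c d : ℝ) (n : WithTop ℕ∞) : ContDiff ℝ n (F m a b c d) := by
  unfold F P
  have h0 : ContDiff ℝ n (fun z : EuclideanSpace ℝ (Fin (m + 2)) => z 0) := (pr m 0).contDiff
  have h1 : ContDiff ℝ n (fun z : EuclideanSpace ℝ (Fin (m + 2)) => z 1) := (pr m 1).contDiff
  exact ((((contDiff_const.mul h0).mul (h1.pow 6)).add
    ((contDiff_const.mul (h0.pow 3)).mul (h1.pow 4))).add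
    ((contDiff_const.mul (h0.pow 5)).mul (h1.pow 2))).add (contDiff_const.mul (h0.pow 7))

end Pool.Agent.Work.MP_a60953_an
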