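import Pool.Agent.Work.MP_a60953_an.Alg

/-! A polynomial counterexample to the Hopf-lemma variant for the Laplacian, in every
dimension `n = m + 2 ≥ 2`. A point `x` of `ℝ^n` is `(t, y)` with `t = x 0` and
`y = (x 1, …, x (n-1))`. -/

open scoped Laplacian ContDiff

namespace Pool.Agent.Work.MP_a60953_an.OldCounterexample

/-- The cylinder `Ω = {(t, y) : |y| < 1, 0 < t < 1}` in `ℝ^(m+2)`. -/
def Omega (m : ℕ) : Set (EuclideanSpace ℝ (Fin (m + 2))) :=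
  {x | ∑ j : Fin (m + 1), x j.succ ^ 2 < 1 ∧ 0 < x 0 ∧ x 0 < 1}

open Pool.Agent.Work.MP_a60953_an in
theorem result (m : ℕ) :
    ∃ u v : EuclideanSpace ℝ (Fin (m + 2)) → ℝ,
      ContDiff ℝ ∞ u ∧ ContDiff ℝ ∞ v ∧
      AnalyticOnNhd ℝ u Set.univ ∧ AnalyticOnNhd ℝ v Set.univ ∧
      (∀ x ∈ Omega m, v x ≤ u x) ∧
      (∀ x ∈ Omega m, 0 < u x ∧ 0 < v x ∧ 0 < lineDeriv ℝ u x (EuclideanSpace.single 0 1)) ∧
      (∀ x : EuclideanSpace ℝ (Fin (m + 2)),
        x 0 = 0 → ∑ j : Fin (m + 1), x j.succ ^ 2 < 1 → u x = 0) ∧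
      (∀ x ∈ Omega m, ∀ z ∈ Omega m, (∀ j : Fin (m + 1), x j.succ = z j.succ) → x 0 ≤ z 0 →
        u x = v z → Laplacian.laplacian u x ≤ Laplacian.laplacian v z) ∧
      lineDeriv ℝ u 0 (EuclideanSpace.single 0 1) = 0 ∧
      ∃ x ∈ Omega m, u x ≠ v x := by
  refine ⟨F m 300000 (-10000) 2000 30, F m 299940 (-9997) 1998 29, contDiff_F _ _ _ _ _,
    contDiff_F _ _ _ _ _, (contDiff_F _ _ _ _ ω).analyticOnNhd,
    (contDiff_F _ _ _ _ ω).analyticOnNhd, ?_, ?_, ?_, ?_, ?_, ?_⟩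
  · intro x hx
    have h1 := u_sub_v (x 0) (x 1)
    have h2 := delta_pos (x 0) (x 1) hx.2.1
    unfold F; linarith
  · intro x hx
    have h1 := u_sub_v (x 0) (x 1)
    have h2 := delta_pos (x 0) (x 1) hx.2.1
    have h3 := v_pos (x 0) (x 1) hx.2.1
    refine ⟨by unfold F; linarith, h3, ?_⟩
    rw [lineDeriv_F]; exact ut_pos _ _ hx.2.1
  · intro x hx _
    simp [F, P, hx]
  · intro x hx z _ hy hts h
    have h1 : x 1 = z 1 := hy 0
    rw [laplacian_F, laplacian_F, h1]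
    refine comparison _ _ _ hx.2.1 hts ?_
    unfold F at h; rwa [h1] at h
  · rw [lineDeriv_F]; simp [Pt]
  · refine ⟨EuclideanSpace.single 0 (1 / 2), ⟨?_, ?_, ?_⟩, ?_⟩
    · simp [Fin.succ_ne_zero]
    · simp
    · simp; norm_num
    · intro h
      have h1 := u_sub_v ((EuclideanSpace.single 0 (1 / 2) : EuclideanSpace ℝ (Fin (m + 2))) 0)
        ((EuclideanSpace.single 0 (1 / 2) : EuclideanSpace ℝ (Fin (m + 2))) 1)
      have h2 := delta_pos ((EuclideanSpace.single 0 (1 / 2) : EuclideanSpace ℝ (Fin (m + 2))) 0)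
        ((EuclideanSpace.single 0 (1 / 2) : EuclideanSpace ℝ (Fin (m + 2))) 1) (by simp)
      unfold F at h; linarith

end Pool.Agent.Work.MP_a60953_an.OldCounterexample
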